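import Pool.Graph.R_seed8.R531.Spl.Eqv
import Pool.Graph.R_seed8.Y395.SP.Asm
import Pool.Graph.R_seed8.Y395.SP.Reinf

set_option autoImplicit false

/-! Splaying: level sets of request sequences; padding of a closed sequence. -/

namespace Pool.Agent.Helper86.Spl

open Pool.Agent.H581R2.Splay Pool.Agent.TH49.Spl Pool.Agent.Y395.SP Pool.Agent.R531.Spl

/-- the request sequences of keys of `T` -/
def Req (T : Tr) : Set (List ℕ) := {X | ∀ x ∈ X, x ∈ keys T}

/-- the request sequences of optimal cost at most `b` -/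
def OptLe (T : Tr) (b : ℕ) : Set (List ℕ) := {X | X ∈ Req T ∧ opt T X ≤ b}

/-- the request sequences of splay cost at most `b` -/
def CostLe (T : Tr) (b : ℕ) : Set (List ℕ) := {X | X ∈ Req T ∧ costSplay T X ≤ b}

/-- the request sequences of length `m` -/
def Len (T : Tr) (m : ℕ) : Set (List ℕ) := {X | X ∈ Req T ∧ X.length = m}

/-- the request sequences on which splaying costs more than `c` times the optimum -/
def Bad (c : ℕ) (T : Tr) : Set (List ℕ) := {X | c * opt T X < costSplay T X}

theorem fin_len (K : List ℕ) (m : ℕ) :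
    {X : List ℕ | X.length ≤ m ∧ ∀ x ∈ X, x ∈ K}.Finite := by
  have h : Finite {x // x ∈ K} := by
    have : {x | x ∈ K} = (K.toFinset : Set ℕ) := by ext x; simp
    have h1 : ({x | x ∈ K} : Set ℕ).Finite := by rw [this]; exact K.toFinset.finite_toSet
    exact h1.to_subtype
  refine ((List.finite_length_le {x // x ∈ K} m).image (List.map Subtype.val)).subset ?_
  rintro X ⟨h1, h2⟩
  refine ⟨X.attach.map fun x => ⟨x.1, h2 x.1 x.2⟩, ?_, ?_⟩
  · show (X.attach.map fun x => (⟨x.1, h2 x.1 x.2⟩ : {x // x ∈ K})).length ≤ m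
    simpa using h1
  · rw [List.map_map]
    exact List.attach_map_subtype_val X

theorem len_cost (X : List ℕ) : ∀ T : Tr, X.length ≤ costSplay T X := by
  induction X with
  | nil => intro T; simp
  | cons x X ih => intro T; simp only [List.length_cons, costSplay]; have := ih (splay x T); omega

theorem optLe_finite (T : Tr) (b : ℕ) : (OptLe T b).Finite :=
  (fin_len (keys T) b).subset fun X hX => ⟨(length_le_opt T X).trans hX.2, hX.1⟩

theorem costLe_finite (T : Tr) (b : ℕ) : (CostLe T b).Finite :=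
  (fin_len (keys T) b).subset fun X hX => ⟨(len_cost X T).trans hX.2, hX.1⟩

theorem len_finite (T : Tr) (m : ℕ) : (Len T m).Finite :=
  (fin_len (keys T) m).subset fun X hX => ⟨le_of_eq hX.2, hX.1⟩

/-- the failure form with a closed sequence -/
theorem closed_failure (h : ¬ DynOpt) (c : ℕ) : ∃ N : ℕ, ∀ T : Tr, IsBST T → N ≤ (keys T).length →
    ∃ (Z : List ℕ) (D : ℕ), (∀ z ∈ Z, z ∈ keys T) ∧ runS T Z = T ∧ ExecE T Z T D ∧
      c * D < costSplay T Z := by
  by_contra hcon
  push Not at hcon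
  refine h (weak_dyn (closed_weak ⟨c, fun N => ?_⟩))
  obtain ⟨T, hb, hN, h1⟩ := hcon N
  exact ⟨T, hb, hN, fun Z D hZ hr hD => h1 Z D hZ hr hD⟩

/-- padding -/
def pad (Z : List ℕ) (k : ℕ) (Y : List ℕ) : List ℕ := (List.replicate k Z).flatten ++ Y

theorem pad_inj (Z : List ℕ) (k : ℕ) : Function.Injective (pad Z k) := by
  intro Y Y' h
  exact List.append_cancel_left h

theorem pad_req {T : Tr} {Z : List ℕ} (hZ : ∀ z ∈ Z, z ∈ keys T) (k : ℕ) {Y : List ℕ}
    (hY : ∀ y ∈ Y, y ∈ keys T) : pad Z k Y ∈ Req T := by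
  intro x hx
  rcases List.mem_append.1 hx with hx | hx
  · rw [List.mem_flatten] at hx
    obtain ⟨L, h1, h2⟩ := hx
    rw [List.eq_of_mem_replicate h1] at h2
    exact hZ x h2
  · exact hY x hx

theorem pad_cost {T : Tr} {Z : List ℕ} (hr : runS T Z = T) (k : ℕ) (Y : List ℕ) :
    costSplay T (pad Z k Y) = k * costSplay T Z + costSplay T Y := by
  have h := runS_rep hr k
  unfold pad
  rw [costSplay_append, h.1, h.2]

theorem pad_opt {T : Tr} {Z : List ℕ} {D : ℕ} (hD : ExecE T Z T D) (k : ℕ) (Y : List ℕ) :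
    opt T (pad Z k Y) ≤ k * D + opt T Y := by
  obtain ⟨T', h⟩ := Exec.toE (opt_spec T Y)
  exact opt_le ((hD.rep k).append h).exec

theorem pad_len (Z : List ℕ) (k : ℕ) (Y : List ℕ) : (pad Z k Y).length = k * Z.length + Y.length := by
  unfold pad
  rw [List.length_append, List.length_flatten, List.map_replicate, List.sum_replicate, smul_eq_mul]

end Pool.Agent.Helper86.Spl
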