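import Pool.Agent.Helper86.Spl.Core

set_option autoImplicit false

/-! Splaying: the numbers of request sequences of given cost. -/

namespace Pool.Agent.Helper86.Spl

open Pool.Agent.H581R2.Splay Pool.Agent.TH49.Spl Pool.Agent.Y395.SP Pool.Agent.R531.Spl

/-- words over a finite alphabet -/
theorem words (S : Finset ℕ) (m : ℕ) {F : Set (List ℕ)} (hF : F.Finite)
    (h : ∀ Y : List ℕ, Y.length = m → (∀ z ∈ Y, z ∈ S) → Y ∈ F) : S.card ^ m ≤ F.ncard := by
  classical
  have h1 : Function.Injective (fun f : Fin m → S => List.ofFn (fun i => (f i : ℕ))) := by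
    intro f g hfg
    have := List.ofFn_injective hfg
    funext i
    exact Subtype.ext (congrFun this i)
  have h2 : Set.range (fun f : Fin m → S => List.ofFn (fun i => (f i : ℕ))) ⊆ F := by
    rintro _ ⟨f, rfl⟩
    refine h _ (by simp) ?_
    intro z hz
    simp only [List.mem_ofFn] at hz
    obtain ⟨i, rfl⟩ := hz
    exact (f i).2
  have h3 := Set.ncard_le_ncard h2 hF
  rw [← Set.image_univ, Set.ncard_image_of_injective _ h1, Set.ncard_univ] at h3
  simpa using h3

theorem optLe_card_le {T : Tr} (hb : IsBST T) (b : ℕ) :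
    (OptLe T b).ncard ≤ (b + 1) * 2 ^ (10 * b + 2) := by
  classical
  have h1 : ∀ m, ((seqs (keys T).toFinset m).filter
      fun X => opt T (List.ofFn X) ≤ b).card ≤ 2 ^ (10 * b + 2) := by
    intro m
    have hk := kraft1_holds m T hb
    have h2 : ∑ X ∈ (seqs (keys T).toFinset m).filter (fun X => opt T (List.ofFn X) ≤ b),
        (1 / 2 : ℝ) ^ (10 * b + 2) ≤ 1 := by
      refine le_trans ?_ hk
      refine le_trans (Finset.sum_le_sum (f := fun _ => (1 / 2 : ℝ) ^ (10 * b + 2))
        (g := fun X => (1 / 2 : ℝ) ^ (10 * opt T (List.ofFn X) + 2)) ?_) ?_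
      · intro X hX
        rw [Finset.mem_filter] at hX
        exact pow_le_pow_of_le_one (by norm_num) (by norm_num) (by have := hX.2; omega)
      · exact Finset.sum_le_sum_of_subset_of_nonneg (Finset.filter_subset _ _)
          (fun X _ _ => by positivity)
    rw [Finset.sum_const, nsmul_eq_mul, one_div, inv_pow, mul_inv_le_iff₀ (by positivity),
      one_mul] at h2
    exact_mod_cast h2
  have h2 : OptLe T b ⊆ ((Finset.range (b + 1)).biUnion fun m =>
      ((seqs (keys T).toFinset m).filter fun X => opt T (List.ofFn X) ≤ b).image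
        (fun X : Fin m → ℕ => List.ofFn X) : Finset (List ℕ)) := by
    intro X hX
    have hl := (length_le_opt T X).trans hX.2
    rw [Finset.mem_coe, Finset.mem_biUnion]
    refine ⟨X.length, by rw [Finset.mem_range]; omega, ?_⟩
    rw [Finset.mem_image]
    refine ⟨fun i => X[i], ?_, ?_⟩
    · rw [Finset.mem_filter]
      constructor
      · rw [seqs, Fintype.mem_piFinset]
        intro i
        rw [List.mem_toFinset]
        exact hX.1 _ (List.getElem_mem _)
      · have : List.ofFn (fun i : Fin X.length => X[i]) = X := List.ofFn_getElem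
        rw [this]
        exact hX.2
    · exact List.ofFn_getElem
  have h3 := Set.ncard_le_ncard h2 (Finset.finite_toSet _)
  rw [Set.ncard_coe_finset] at h3
  refine h3.trans (Finset.card_biUnion_le.trans ?_)
  refine (Finset.sum_le_sum (g := fun _ => 2 ^ (10 * b + 2)) fun m _ =>
    Finset.card_image_le.trans (h1 m)).trans ?_
  simp

/-- cutting an execution -/
theorem cut {T : Tr} {X : List ℕ} {c : ℕ} (h : Exec T X c) : ∀ b₁ b₂ : ℕ, c ≤ b₁ + b₂ →
    Exec T X c ∧ c ≤ b₁ ∨ ∃ X₁ x X₂ T₂ c₁ c₂, X = X₁ ++ x :: X₂ ∧ Exec T X₁ c₁ ∧ c₁ ≤ b₁ ∧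
      keys T₂ = keys T ∧ Exec T₂ X₂ c₂ ∧ c₂ ≤ b₂ := by
  induction h with
  | nil T => intro b₁ b₂ _; exact Or.inl ⟨Exec.nil T, Nat.zero_le _⟩
  | cons T T' x Y e c h1 h2 ih =>
    intro b₁ b₂ hc
    by_cases hw : 1 + e + dep x T ≤ b₁
    · obtain ⟨b, rfl⟩ := Nat.exists_eq_add_of_le hw
      rcases ih b b₂ (by omega) with ⟨_, h3⟩ | ⟨X₁, z, X₂, T₂, c₁, c₂, h3, h4, h5, h6, h7, h8⟩
      · exact Or.inl ⟨Exec.cons T T' x Y e c h1 h2, by omega⟩
      · exact Or.inr ⟨x :: X₁, z, X₂, T₂, _, c₂, by rw [h3]; rfl,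
          Exec.cons T T' x X₁ e c₁ h1 h4, by omega, by rw [h6, rotN_keys h1], h7, h8⟩
    · exact Or.inr ⟨[], x, Y, T', 0, c, rfl, Exec.nil T, Nat.zero_le _, rotN_keys h1, h2, by omega⟩

/-- changing the initial tree -/
theorem opt_change {T U : Tr} (hb : IsBST T) (hk : keys U = keys T) {X : List ℕ} {c : ℕ}
    (hX : ∀ x ∈ X, x ∈ keys T) (h : Exec U X c) : opt T X ≤ c + 7 * (keys T).length := by
  refine (opt_le_optAny hb hX).trans (Nat.add_le_add_right ?_ _)
  exact Nat.sInf_le (s := {c : ℕ | ∃ T' : Tr, keys T' = keys T ∧ Exec T' X c}) ⟨U, hk, h⟩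

theorem submul {T : Tr} (hb : IsBST T) (b₁ b₂ : ℕ) :
    (OptLe T (b₁ + b₂)).ncard ≤
      (OptLe T b₁).ncard * (((keys T).length + 1) *
        (OptLe T (b₂ + 7 * (keys T).length)).ncard) := by
  classical
  set P := (optLe_finite T b₁).toFinset with hP
  set Q := (optLe_finite T (b₂ + 7 * (keys T).length)).toFinset with hQ
  have h1 : OptLe T (b₁ + b₂) ⊆ ((P ×ˢ (Q.image fun Y => ([] : List ℕ)) ∪
      P ×ˢ (((keys T).toFinset ×ˢ Q).image fun p => p.1 :: p.2)).image
        fun p : List ℕ × List ℕ => p.1 ++ p.2 : Finset (List ℕ)) := by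
    rintro X ⟨hX, hc⟩
    rw [Finset.mem_coe, Finset.mem_image]
    rcases cut (opt_spec T X) b₁ b₂ hc with ⟨_, h3⟩ |
      ⟨X₁, z, X₂, T₂, c₁, c₂, h3, h4, h5, h6, h7, h8⟩
    · refine ⟨(X, []), ?_, by simp⟩
      rw [Finset.mem_union]
      left
      rw [Finset.mem_product]
      refine ⟨by rw [hP, Set.Finite.mem_toFinset]; exact ⟨hX, h3⟩, ?_⟩
      rw [Finset.mem_image]
      refine ⟨[], ?_, rfl⟩
      rw [hQ, Set.Finite.mem_toFinset]
      exact ⟨fun x hx => absurd hx (by simp), (opt_le (Exec.nil T)).trans (Nat.zero_le _)⟩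
    · have hX2 : ∀ x ∈ X₂, x ∈ keys T := fun x hx => hX x (by rw [h3]; simp [hx])
      refine ⟨(X₁, z :: X₂), ?_, by rw [h3]⟩
      rw [Finset.mem_union]
      right
      rw [Finset.mem_product]
      refine ⟨?_, ?_⟩
      · rw [hP, Set.Finite.mem_toFinset]
        exact ⟨fun x hx => hX x (by rw [h3]; simp [hx]), (opt_le h4).trans h5⟩
      · rw [Finset.mem_image]
        refine ⟨(z, X₂), ?_, rfl⟩
        rw [Finset.mem_product]
        refine ⟨by rw [List.mem_toFinset]; exact hX z (by rw [h3]; simp), ?_⟩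
        rw [hQ, Set.Finite.mem_toFinset]
        exact ⟨hX2, (opt_change hb h6 hX2 h7).trans (by omega)⟩
  have h2 := Set.ncard_le_ncard h1 (Finset.finite_toSet _)
  rw [Set.ncard_coe_finset] at h2
  refine h2.trans (Finset.card_image_le.trans ((Finset.card_union_le _ _).trans ?_))
  rw [Finset.card_product, Finset.card_product]
  have h3 : (Q.image fun Y => ([] : List ℕ)).card ≤ Q.card := Finset.card_image_le
  have h4 : (((keys T).toFinset ×ˢ Q).image fun p => p.1 :: p.2).card ≤
      (keys T).length * Q.card := by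
    refine Finset.card_image_le.trans ?_
    rw [Finset.card_product]
    exact Nat.mul_le_mul_right _ (List.toFinset_card_le _)
  have hP' : P.card = (OptLe T b₁).ncard := (Set.ncard_eq_toFinset_card _ _).symm
  have hQ' : Q.card = (OptLe T (b₂ + 7 * (keys T).length)).ncard :=
    (Set.ncard_eq_toFinset_card _ _).symm
  rw [← hP', ← hQ']
  calc P.card * (Q.image fun Y => ([] : List ℕ)).card +
        P.card * (((keys T).toFinset ×ˢ Q).image fun p => p.1 :: p.2).card
      ≤ P.card * Q.card + P.card * ((keys T).length * Q.card) :=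
        Nat.add_le_add (Nat.mul_le_mul_left _ h3) (Nat.mul_le_mul_left _ h4)
    _ = _ := by ring

/-- two keys at the top -/
theorem top_pair {T : Tr} (hb : IsBST T) (h2 : 2 ≤ (keys T).length) :
    ∃ (x y : ℕ) (A B C : Tr), y < x ∧
      (T = Tr.node x (Tr.node y A B) C ∨ T = Tr.node y A (Tr.node x B C)) := by
  cases T with
  | nil => simp [keys] at h2
  | node a l r =>
    have hb' := bst_node hb
    cases l with
    | node b A B =>
      refine ⟨a, b, A, B, r, ?_, Or.inl rfl⟩
      unfold IsBST at hb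
      simp only [keys, List.pairwise_append] at hb
      exact hb.2.2 b (by simp) a (by simp)
    | nil =>
      cases r with
      | nil => simp [keys] at h2
      | node b B C =>
        refine ⟨b, a, Tr.nil, B, C, ?_, Or.inr rfl⟩
        unfold IsBST at hb
        simp only [keys, List.nil_append, List.pairwise_cons] at hb
        exact hb.1 b (by simp)

theorem pair_cost {x y : ℕ} (hxy : y < x) (A B C : Tr) : ∀ Y : List ℕ,
    (∀ z ∈ Y, z ∈ ({x, y} : Finset ℕ)) →
    costSplay (Tr.node x (Tr.node y A B) C) Y ≤ 2 * Y.length ∧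
    costSplay (Tr.node y A (Tr.node x B C)) Y ≤ 2 * Y.length := by
  intro Y
  induction Y with
  | nil => intro _; simp [costSplay]
  | cons z Y ih =>
    intro h
    obtain ⟨i1, i2⟩ := ih fun w hw => h w (by simp [hw])
    have hz := h z (by simp)
    rw [Finset.mem_insert, Finset.mem_singleton] at hz
    have hne : ¬ x < y := by omega
    have hne' : x ≠ y := by omega
    have hne'' : y ≠ x := by omega
    have s1 : splay x (Tr.node x (Tr.node y A B) C) = Tr.node x (Tr.node y A B) C := by
      simp [splay, locate, climb]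
    have s2 : splay y (Tr.node y A (Tr.node x B C)) = Tr.node y A (Tr.node x B C) := by
      simp [splay, locate, climb]
    have s3 : splay y (Tr.node x (Tr.node y A B) C) = Tr.node y A (Tr.node x B C) := by
      simp [splay, locate, climb, hne'', hxy]
    have s4 : splay x (Tr.node y A (Tr.node x B C)) = Tr.node x (Tr.node y A B) C := by
      simp [splay, locate, climb, hne', hne]
    have d1 : dep x (Tr.node x (Tr.node y A B) C) = 0 := by simp [dep]
    have d2 : dep y (Tr.node y A (Tr.node x B C)) = 0 := by simp [dep]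
    have d3 : dep y (Tr.node x (Tr.node y A B) C) = 1 := by simp [dep, hne'', hxy]
    have d4 : dep x (Tr.node y A (Tr.node x B C)) = 1 := by simp [dep, hne', hne]
    rcases hz with rfl | rfl
    · simp only [costSplay, List.length_cons, s1, s4, d1, d4]
      omega
    · simp only [costSplay, List.length_cons, s2, s3, d2, d3]
      omega

theorem stat_exec {T : Tr} {d : ℕ} : ∀ Y : List ℕ, (∀ z ∈ Y, dep z T ≤ d) →
    ∃ c ≤ (1 + d) * Y.length, Exec T Y c := by
  intro Y
  induction Y with
  | nil => intro _; exact ⟨0, by simp, Exec.nil T⟩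
  | cons z Y ih =>
    intro h
    obtain ⟨c, h1, h2⟩ := ih fun w hw => h w (by simp [hw])
    refine ⟨1 + 0 + dep z T + c, ?_, Exec.cons T T z Y 0 c (RotN.refl T) h2⟩
    have := h z (by simp)
    simp only [List.length_cons]
    nlinarith

/-- cheap words -/
theorem cheap {T : Tr} (hb : IsBST T) (h2 : 2 ≤ (keys T).length) :
    ∃ S : Finset ℕ, S.card = 2 ∧ (∀ x ∈ S, x ∈ keys T) ∧ ∀ Y : List ℕ, (∀ z ∈ Y, z ∈ S) →
      opt T Y ≤ 2 * Y.length ∧ costSplay T Y ≤ 2 * Y.length := by
  obtain ⟨x, y, A, B, C, hxy, hT⟩ := top_pair hb h2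
  have hne : ¬ x < y := by omega
  have hne' : x ≠ y := by omega
  have hne'' : y ≠ x := by omega
  refine ⟨{x, y}, Finset.card_pair hne', ?_, ?_⟩
  · intro z hz
    rw [Finset.mem_insert, Finset.mem_singleton] at hz
    rcases hT with rfl | rfl <;> rcases hz with rfl | rfl <;> simp [keys]
  · intro Y hY
    have hd : ∀ z ∈ Y, dep z T ≤ 1 := by
      intro z hz
      have := hY z hz
      rw [Finset.mem_insert, Finset.mem_singleton] at this
      rcases hT with rfl | rfl <;> rcases this with rfl | rfl <;> simp [dep, hne, hne', hne'', hxy]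
    obtain ⟨c, h1, h3⟩ := stat_exec Y hd
    refine ⟨(opt_le h3).trans (by omega), ?_⟩
    rcases hT with rfl | rfl
    · exact (pair_cost hxy A B C Y hY).1
    · exact (pair_cost hxy A B C Y hY).2

theorem optLe_card_ge {T : Tr} (hb : IsBST T) (h2 : 2 ≤ (keys T).length) (b : ℕ) :
    2 ^ (b / 2) ≤ (OptLe T b).ncard := by
  obtain ⟨S, h3, h4, h5⟩ := cheap hb h2
  have := words S (b / 2) (optLe_finite T b) (fun Y hY hS =>
    ⟨fun z hz => h4 z (hS z hz), (h5 Y hS).1.trans (by rw [hY]; omega)⟩)
  rwa [h3] at this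

/-- a balanced tree -/
theorem static {T : Tr} (hb : IsBST T) (h1 : 1 ≤ (keys T).length) (Y : List ℕ)
    (hY : ∀ y ∈ Y, y ∈ keys T) :
    opt T Y ≤ (1 + Nat.log 2 (keys T).length) * Y.length + 7 * (keys T).length := by
  obtain ⟨U, h2, h3⟩ := wbt (fun _ => 1) (fun _ => zero_le_one) _ (keys T) rfl hb
  have h4 : ∀ z ∈ Y, dep z U ≤ Nat.log 2 (keys T).length := by
    intro z hz
    have h5 := h3 z (hY z hz)
    rw [List.map_const', List.sum_replicate, one_mul, nsmul_eq_mul, mul_one] at h5
    have h6 : 2 ^ dep z U ≤ (keys T).length := by exact_mod_cast h5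
    exact Nat.le_log_of_pow_le (by norm_num) h6
  obtain ⟨c, h5, h6⟩ := stat_exec Y h4
  exact (opt_change hb h2 hY h6).trans (Nat.add_le_add_right h5 _)

end Pool.Agent.Helper86.Spl
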