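import Pool.Agent.Helper86.Spl.Count

set_option autoImplicit false

/-! Splaying: the zero-one law for the exceptions to dynamic optimality. -/

namespace Pool.Agent.Helper86.Spl

open Pool.Agent.H581R2.Splay Pool.Agent.TH49.Spl Pool.Agent.Y395.SP Pool.Agent.R531.Spl

theorem lin_exp (K L : ℕ) : ∃ v₀ : ℕ, ∀ v, v₀ ≤ v → K * (v + L) ≤ 2 ^ v := by
  refine ⟨2 * (K + L + 2) + 2, fun v hv => ?_⟩
  induction v, hv using Nat.le_induction with
  | base =>
    have h1 : K + L + 2 < 2 ^ (K + L + 2) := Nat.lt_two_pow_self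
    have h2 : 2 ^ (2 * (K + L + 2) + 2) = 4 * (2 ^ (K + L + 2) * 2 ^ (K + L + 2)) := by
      rw [pow_add, pow_mul', sq]; ring
    rw [h2]
    have h3 : (K + L + 2) * (K + L + 2) ≤ 2 ^ (K + L + 2) * 2 ^ (K + L + 2) :=
      Nat.mul_le_mul h1.le h1.le
    nlinarith
  | succ v hv ih =>
    rw [pow_succ]
    have : 1 ≤ v := by omega
    nlinarith

theorem length_pos_of_cost {T : Tr} {Z : List ℕ} {c D : ℕ} (h : c * D < costSplay T Z) :
    1 ≤ Z.length := by
  cases Z with
  | nil => simp [costSplay] at h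
  | cons z Z => simp

/-- among the sequences of bounded optimal cost -/
theorem law_opt (h : ¬ DynOpt) (c q : ℕ) : ∃ N : ℕ, ∀ T : Tr, IsBST T → N ≤ (keys T).length →
    ∃ M : ℕ, ∀ b, M ≤ b → (OptLe T b).ncard ^ q ≤ (OptLe T b ∩ Bad c T).ncard ^ (q + 1) := by
  obtain ⟨N, hN⟩ := closed_failure h (4 * (22 * q + 1) * c)
  refine ⟨max N 2, fun T hb hT => ?_⟩
  obtain ⟨Z, D, hZ, hr, hD, hs⟩ := hN T hb (le_trans (le_max_left _ _) hT)
  have h2 : 2 ≤ (keys T).length := le_trans (le_max_right _ _) hT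
  set n := (keys T).length with hn
  have hZ1 := length_pos_of_cost hs
  have hD1 : 1 ≤ D := hZ1.trans (length_le_exec hD.exec)
  obtain ⟨v₀, hv₀⟩ := lin_exp ((n + 1) * 2 ^ (70 * n + 2)) (7 * n + 1)
  refine ⟨(22 * q + 1) * (v₀ + 2 * D), fun b hbM => ?_⟩
  set Q := 22 * q + 1 with hQ
  have hQ1 : 1 ≤ Q := by omega
  set v := b / Q with hv
  have hv1 : v₀ + 2 * D ≤ v := by
    rw [hv, Nat.le_div_iff_mul_le (by omega)]
    rw [Nat.mul_comm]
    exact hbM
  have hQv : Q * v ≤ b := Nat.mul_div_le b Q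
  have hvb : v ≤ b := (Nat.le_mul_of_pos_left v (by omega)).trans hQv
  have hbv : b < Q * (v + 1) := by
    have := Nat.lt_div_mul_add (a := b) (b := Q) (by omega)
    rw [← hv] at this
    nlinarith
  set k := v / D with hk
  have hkD : k * D ≤ v := Nat.div_mul_le_self v D
  have hkD2 : v < k * D + D := by
    have := Nat.lt_div_mul_add (a := v) (b := D) (by omega)
    rwa [← hk] at this
  have hkD3 : v ≤ 2 * (k * D) := by omega
  have hk1 : 1 ≤ k := by
    rcases Nat.eq_zero_or_pos k with h0 | h0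
    · rw [h0] at hkD2; omega
    · exact h0
  -- padding
  have hpad : (OptLe T (b - v)).ncard ≤ (OptLe T b ∩ Bad c T).ncard := by
    rw [← Set.ncard_image_of_injective _ (pad_inj Z k)]
    refine Set.ncard_le_ncard ?_ ((optLe_finite T b).subset Set.inter_subset_left)
    rintro _ ⟨Y, ⟨hY, hYo⟩, rfl⟩
    have ho : opt T (pad Z k Y) ≤ b := (pad_opt hD k Y).trans (by omega)
    refine ⟨⟨pad_req hZ k hY, ho⟩, ?_⟩
    show c * opt T (pad Z k Y) < costSplay T (pad Z k Y)
    rw [pad_cost hr]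
    calc c * opt T (pad Z k Y) ≤ c * b := Nat.mul_le_mul_left _ ho
      _ ≤ c * (2 * Q * v) := Nat.mul_le_mul_left _ (by nlinarith)
      _ ≤ c * (2 * Q * (2 * (k * D))) := Nat.mul_le_mul_left _ (Nat.mul_le_mul_left _ hkD3)
      _ = k * (4 * Q * c * D) := by ring
      _ < k * costSplay T Z := Nat.mul_lt_mul_of_pos_left hs hk1
      _ ≤ _ := Nat.le_add_right _ _
  -- the level sets
  have hsub := submul hb (b - v) v
  rw [Nat.sub_add_cancel hvb, ← hn] at hsub
  have hup := optLe_card_le hb (v + 7 * n)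
  have h3 : (n + 1) * (OptLe T (v + 7 * n)).ncard ≤ 2 ^ (11 * v) := by
    calc (n + 1) * (OptLe T (v + 7 * n)).ncard
        ≤ (n + 1) * ((v + 7 * n + 1) * 2 ^ (10 * (v + 7 * n) + 2)) := Nat.mul_le_mul_left _ hup
      _ = ((n + 1) * 2 ^ (70 * n + 2) * (v + (7 * n + 1))) * 2 ^ (10 * v) := by
          rw [show 10 * (v + 7 * n) + 2 = (70 * n + 2) + 10 * v by ring, pow_add]; ring
      _ ≤ 2 ^ v * 2 ^ (10 * v) := Nat.mul_le_mul_right _ (hv₀ v (by omega))
      _ = 2 ^ (11 * v) := by rw [← pow_add]; congr 1; ring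
  have h4 : ((n + 1) * (OptLe T (v + 7 * n)).ncard) ^ q ≤ (OptLe T (b - v)).ncard := by
    refine (Nat.pow_le_pow_left h3 q).trans (le_trans ?_ (optLe_card_ge hb h2 (b - v)))
    rw [← pow_mul]
    refine Nat.pow_le_pow_right (by norm_num) ?_
    rw [Nat.le_div_iff_mul_le (by norm_num)]
    have : 22 * q * v + v ≤ b := by
      calc 22 * q * v + v = Q * v := by rw [hQ]; ring
        _ ≤ b := hQv
    have h5 : 11 * v * q * 2 = 22 * q * v := by ring
    rw [h5]
    omega
  calc (OptLe T b).ncard ^ q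
      ≤ ((OptLe T (b - v)).ncard * ((n + 1) * (OptLe T (v + 7 * n)).ncard)) ^ q :=
        Nat.pow_le_pow_left hsub q
    _ = (OptLe T (b - v)).ncard ^ q * ((n + 1) * (OptLe T (v + 7 * n)).ncard) ^ q := mul_pow _ _ _
    _ ≤ (OptLe T (b - v)).ncard ^ q * (OptLe T (b - v)).ncard := Nat.mul_le_mul_left _ h4
    _ = (OptLe T (b - v)).ncard ^ (q + 1) := (pow_succ _ _).symm
    _ ≤ _ := Nat.pow_le_pow_left hpad _

theorem pad_words (Z : List ℕ) (k : ℕ) (S : Finset ℕ) (m : ℕ) {F : Set (List ℕ)} (hF : F.Finite)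
    (h : ∀ Y : List ℕ, Y.length = m → (∀ z ∈ Y, z ∈ S) → pad Z k Y ∈ F) :
    S.card ^ m ≤ F.ncard := by
  have h1 : (pad Z k ⁻¹' F).Finite := hF.preimage (pad_inj Z k).injOn
  have h2 := words S m h1 h
  refine h2.trans ?_
  rw [← Set.ncard_image_of_injective _ (pad_inj Z k)]
  exact Set.ncard_le_ncard (Set.image_preimage_subset _ _) hF

/-- among the sequences of bounded splay cost -/
theorem law_cost (h : ¬ DynOpt) (c : ℕ) : ∃ N : ℕ, ∀ T : Tr, IsBST T → N ≤ (keys T).length →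
    ∃ M : ℕ, ∀ b, M ≤ b → 2 ^ (b / (8 * (c + 1))) ≤ (CostLe T b ∩ Bad c T).ncard := by
  obtain ⟨N, hN⟩ := closed_failure h (4 * (c + 1))
  refine ⟨max N 2, fun T hb hT => ?_⟩
  obtain ⟨Z, D, hZ, hr, hD, hs⟩ := hN T hb (le_trans (le_max_left _ _) hT)
  have h2 : 2 ≤ (keys T).length := le_trans (le_max_right _ _) hT
  obtain ⟨S, hS, hSk, hSc⟩ := cheap hb h2
  set s := costSplay T Z with hsdef
  have hs1 : 1 ≤ s := by omega
  refine ⟨4 * s, fun b hbM => ?_⟩
  set m := b / (8 * (c + 1)) with hm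
  have hm1 : 8 * (c + 1) * m ≤ b := Nat.mul_div_le b _
  set k := (b / 2) / s with hk
  have hks : k * s ≤ b / 2 := Nat.div_mul_le_self _ _
  have hks2 : b / 2 < k * s + s := by
    have := Nat.lt_div_mul_add (a := b / 2) (b := s) hs1
    rwa [← hk] at this
  have hk2 : 2 ≤ k := by
    rw [hk, Nat.le_div_iff_mul_le hs1]
    omega
  have h2s : 2 * s ≤ k * s := Nat.mul_le_mul_right _ hk2
  have := pad_words Z k S m ((costLe_finite T b).subset (Set.inter_subset_left (t := Bad c T)))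
    (fun Y hY hYS => by
      obtain ⟨h3, h4⟩ := hSc Y hYS
      rw [hY] at h3 h4
      have hYk : ∀ y ∈ Y, y ∈ keys T := fun y hy => hSk y (hYS y hy)
      have h5 := pad_cost hr k Y
      have h6 := pad_opt hD k Y
      rw [← hsdef] at h5
      have h8m : 8 * m ≤ b := by nlinarith
      refine ⟨⟨pad_req hZ k hYk, ?_⟩, ?_⟩
      · rw [h5]; omega
      · show c * opt T (pad Z k Y) < costSplay T (pad Z k Y)
        rw [h5]
        have h7 : 4 * (c * opt T (pad Z k Y)) ≤ k * (4 * (c + 1) * D) + 8 * (c + 1) * m := by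
          have h9 : c * opt T (pad Z k Y) ≤ (c + 1) * (k * D + 2 * m) :=
            Nat.mul_le_mul (Nat.le_succ c) (h6.trans (by omega))
          nlinarith
        have h8 : k * (4 * (c + 1) * D) ≤ k * s := Nat.mul_le_mul_left _ hs.le
        omega)
  rwa [hS] at this

/-- among the sequences of given length -/
theorem law_len (h : ¬ DynOpt) (c q : ℕ) : ∃ N : ℕ, ∀ T : Tr, IsBST T → N ≤ (keys T).length →
    ∃ M : ℕ, ∀ m, M ≤ m → 2 ^ (q * m) ≤ (Len T m ∩ Bad c T).ncard := by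
  set E := q + 1 with hE
  obtain ⟨N, hN⟩ := closed_failure h (c * (1 + 8 * E) + 1)
  refine ⟨max N (2 ^ (4 * E)), fun T hb hT => ?_⟩
  obtain ⟨Z, D, hZ, hr, hD, hs⟩ := hN T hb (le_trans (le_max_left _ _) hT)
  set n := (keys T).length with hn
  have hn4 : 2 ^ (4 * E) ≤ n := le_trans (le_max_right _ _) hT
  have hn1 : 1 ≤ n := le_trans Nat.one_le_two_pow hn4
  set L := Nat.log 2 n with hL
  have hLE : 4 * E ≤ L := Nat.le_log_of_pow_le (by norm_num) hn4
  have hLn : 2 ^ L ≤ n := Nat.pow_log_le_self 2 (by omega)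
  have hz1 := length_pos_of_cost hs
  have hzD : Z.length ≤ D := length_le_exec hD.exec
  set z := Z.length with hz
  set s := costSplay T Z with hsdef
  set W := c * (8 * E * z + 2 * L * z + 7 * n) with hW
  refine ⟨2 * W + 2 * z + L, fun m hmM => ?_⟩
  have hL0 : 0 < L := by omega
  set y₀ := 2 * E * m / L with hy₀
  have hy1 : L * y₀ ≤ 2 * E * m := Nat.mul_div_le _ _
  have hy2 : 2 * E * m < L * y₀ + L := by
    have := Nat.lt_div_mul_add (a := 2 * E * m) (b := L) hL0
    rw [← hy₀] at this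
    nlinarith
  have hy3 : 2 * y₀ ≤ m := by
    have h1 : 4 * E * y₀ ≤ 2 * E * m := (Nat.mul_le_mul_right _ hLE).trans hy1
    have h2 : 0 < 2 * E := by omega
    have h3 : 2 * E * (2 * y₀) ≤ 2 * E * m := by nlinarith
    exact Nat.le_of_mul_le_mul_left h3 h2
  set k := (m - y₀) / z with hk
  have hk1 : k * z ≤ m - y₀ := Nat.div_mul_le_self _ _
  have hk2 : m - y₀ < k * z + z := by
    have := Nat.lt_div_mul_add (a := m - y₀) (b := z) hz1
    rwa [← hk] at this
  set y := m - k * z with hy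
  have hyy : y₀ ≤ y := by omega
  have hyy2 : y < y₀ + z := by omega
  have hmkz : k * z + y = m := by omega
  -- the number of the words
  have hcount : 2 ^ (q * m) ≤ ((keys T).toFinset.card) ^ y := by
    have hc : (keys T).toFinset.card = n := by
      rw [hn]
      exact List.toFinset_card_of_nodup (hb.imp fun h => ne_of_lt h)
    rw [hc]
    calc 2 ^ (q * m) ≤ 2 ^ (L * y) := by
          refine Nat.pow_le_pow_right (by norm_num) ?_
          have h1 : L * y₀ ≤ L * y := Nat.mul_le_mul_left _ hyy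
          have h2 : L ≤ m := by omega
          have h3 : 2 * E * m = 2 * (q * m) + 2 * m := by rw [hE]; ring
          have h4 : q * m ≤ 2 * (q * m) := by omega
          omega
      _ = (2 ^ L) ^ y := pow_mul _ _ _
      _ ≤ n ^ y := Nat.pow_le_pow_left hLn _
  refine hcount.trans (pad_words Z k (keys T).toFinset y
    ((len_finite T m).subset (Set.inter_subset_left (t := Bad c T))) fun Y hY hYS => ?_)
  have hYk : ∀ w ∈ Y, w ∈ keys T := fun w hw => List.mem_toFinset.1 (hYS w hw)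
  refine ⟨⟨pad_req hZ k hYk, by rw [pad_len, hY, ← hz, hmkz]⟩, ?_⟩
  show c * opt T (pad Z k Y) < costSplay T (pad Z k Y)
  have h5 := pad_cost hr k Y
  have h6 := pad_opt hD k Y
  have h7 := static hb hn1 Y hYk
  rw [hY, ← hn, ← hL] at h7
  rw [← hsdef] at h5
  rw [h5]
  -- m < 2 k z + 2 z
  have h8 : m ≤ 2 * (k * z) + 2 * z := by omega
  have h9 : (1 + L) * y ≤ 4 * E * m + 2 * L * z := by
    calc (1 + L) * y ≤ (2 * L) * (y₀ + z) := Nat.mul_le_mul (by omega) hyy2.le
      _ = 2 * (L * y₀) + 2 * L * z := by ring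
      _ ≤ 2 * (2 * E * m) + 2 * L * z := by omega
      _ = _ := by ring
  have h10 : 4 * E * m ≤ 8 * E * (k * z) + 8 * E * z := by
    calc 4 * E * m ≤ 4 * E * (2 * (k * z) + 2 * z) := Nat.mul_le_mul_left _ h8
      _ = _ := by ring
  have h11 : k * z ≤ k * D := Nat.mul_le_mul_left _ hzD
  have h12 : W ≤ k * z := by omega
  have h13 : c * opt T (pad Z k Y) ≤ c * (1 + 8 * E) * (k * D) + W := by
    calc c * opt T (pad Z k Y)
        ≤ c * (k * D + (8 * E * (k * D) + 8 * E * z + 2 * L * z + 7 * n)) := by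
          refine Nat.mul_le_mul_left _ ?_
          have : 8 * E * (k * z) ≤ 8 * E * (k * D) := Nat.mul_le_mul_left _ h11
          omega
      _ = c * (1 + 8 * E) * (k * D) + W := by rw [hW]; ring
  have hk0 : 0 < k := by
    rcases Nat.eq_zero_or_pos k with h0 | h0
    · exfalso
      rw [h0, Nat.zero_mul] at h8
      omega
    · exact h0
  calc c * opt T (pad Z k Y) ≤ c * (1 + 8 * E) * (k * D) + W := h13
    _ ≤ c * (1 + 8 * E) * (k * D) + k * D := Nat.add_le_add_left (h12.trans h11) _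
    _ = k * ((c * (1 + 8 * E) + 1) * D) := by ring
    _ < k * s := Nat.mul_lt_mul_of_pos_left hs hk0
    _ ≤ _ := Nat.le_add_right _ _

/-- the upper bound -/
theorem upper {T : Tr} (hb : IsBST T) {c : ℕ} (hc : 1 ≤ c) (b : ℕ) :
    (CostLe T b ∩ Bad c T).ncard ≤ (b / c + 1) * 2 ^ (10 * (b / c) + 2) := by
  refine (Set.ncard_le_ncard ?_ (optLe_finite T (b / c))).trans (optLe_card_le hb _)
  rintro X ⟨⟨hX, h1⟩, h2⟩
  refine ⟨hX, ?_⟩
  have h3 : c * opt T X < costSplay T X := h2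
  rw [Nat.le_div_iff_mul_le (by omega), Nat.mul_comm]
  omega

theorem bad_empty {c : ℕ} (h : ∀ T : Tr, IsBST T → ∀ X : List ℕ, (∀ x ∈ X, x ∈ keys T) →
    costSplay T X ≤ c * opt T X) {T : Tr} (hb : IsBST T) {A : Set (List ℕ)} (hA : A ⊆ Req T) :
    (A ∩ Bad c T).ncard = 0 := by
  have : A ∩ Bad c T = ∅ := by
    rw [Set.eq_empty_iff_forall_notMem]
    rintro X ⟨h1, h2⟩
    have h3 : c * opt T X < costSplay T X := h2
    have := h T hb X (hA h1)
    omega
  rw [this, Set.ncard_empty]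

theorem optLe_pos (T : Tr) (b : ℕ) : 0 < (OptLe T b).ncard := by
  rw [Set.ncard_pos (optLe_finite T b)]
  exact ⟨[], fun x hx => absurd hx (by simp), (opt_le (Exec.nil T)).trans (Nat.zero_le _)⟩

end Pool.Agent.Helper86.Spl
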